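import Mathlib

set_option autoImplicit false

open Filter Topology
open scoped ENNReal symmDiff

namespace Pool.Agent.Results.MP_60a09a_al.FolnerConstantTwo

/-- The ball of radius `r` for the word metric of the symmetric set `S`: all products of at most
`r` elements of `S`. -/
def ball {G : Type} [Group G] (S : Finset G) (r : ℕ) : Set G :=
  {g : G | ∃ l : List G, l.length ≤ r ∧ (∀ x ∈ l, x ∈ S) ∧ l.prod = g}

/-- The growth function: the number of elements of the ball of radius `r`. -/
noncomputable def growth {G : Type} [Group G] (S : Finset G) (r : ℕ) : ℕ := (ball S r).ncard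

open Classical in
/-- The inner boundary of a finite set `D`: the points `x` of `D` with `s * x` outside `D` for some
`s` in `S`. -/
noncomputable def bd {G : Type} [Group G] (S : Finset G) (D : Finset G) : Finset G :=
  D.filter (fun x => ∃ s ∈ S, s * x ∉ D)

/-- The Folner function: the least cardinality of a nonempty finite set `D` whose inner boundary
has at most `|D| / n` elements, and `⊤` if there is no such set. -/
noncomputable def folner {G : Type} [Group G] (S : Finset G) (n : ℕ) : ℕ∞ :=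
  sInf {m : ℕ∞ | ∃ D : Finset G, D.Nonempty ∧
    ((bd S D).card : ℝ) / (D.card : ℝ) ≤ 1 / (n : ℝ) ∧ m = (D.card : ℕ∞)}

/-- The function `g x = 2 ^ (x - 1)`. -/
noncomputable def g (x : ℝ) : ℝ := (2 : ℝ) ^ (x - 1)

/-- The inverse of `g`, that is `t ↦ 1 + log₂ t`, extended by `⊤ ↦ ⊤`. -/
noncomputable def gInv : ℕ∞ → ℝ≥0∞
  | ⊤ => ⊤
  | (t : ℕ) => ENNReal.ofReal (1 + Real.logb 2 t)

/-- The set of values `liminf g⁻¹(Fol(n)) / n` over all groups with a finite symmetric generating
set `S` such that `γ_S(n-1) ≥ g(n)` for all integers `n ≥ 1`. -/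
def values : Set ℝ≥0∞ :=
  {K : ℝ≥0∞ | ∃ (G : Type) (_ : Group G) (S : Finset G),
    (∀ s ∈ S, s⁻¹ ∈ S) ∧ Subgroup.closure (S : Set G) = ⊤ ∧
    (∀ n : ℕ, 1 ≤ n → g (n : ℝ) ≤ (growth S (n - 1) : ℝ)) ∧
    K = liminf (fun n : ℕ => gInv (folner S n) / (n : ℝ≥0∞)) atTop}

section Lower

variable {G : Type} [Group G] [DecidableEq G]

/-- number of points of `D` thrown out of `D` by `s` -/
def esc (D : Finset G) (s : G) : ℕ := (D.filter (fun x => s * x ∉ D)).card

theorem esc_inv (D : Finset G) (s : G) : esc D s⁻¹ = esc D s := by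
  have h : (D.filter (fun x => s⁻¹ * x ∈ D)).card = (D.filter (fun x => s * x ∈ D)).card := by
    refine Finset.card_bij (fun x _ => s⁻¹ * x) ?_ ?_ ?_
    · intro x hx
      simp only [Finset.mem_filter] at hx ⊢
      refine ⟨hx.2, ?_⟩
      simpa using hx.1
    · intro x _ y _ hxy
      simpa using hxy
    · intro y hy
      simp only [Finset.mem_filter] at hy
      refine ⟨s * y, ?_, by simp⟩
      simp only [Finset.mem_filter]
      exact ⟨hy.2, by simpa using hy.1⟩
  have h1 := Finset.card_filter_add_card_filter_not (s := D) (fun x => s⁻¹ * x ∈ D)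
  have h2 := Finset.card_filter_add_card_filter_not (s := D) (fun x => s * x ∈ D)
  unfold esc
  omega

/-- The points of `D` whose trajectory under some suffix of the word leaves `D`. -/
def ever (D : Finset G) : List G → Finset G
  | [] => ∅
  | s :: l => ever D l ∪ D.filter (fun x => x ∉ ever D l ∧ (s :: l).prod * x ∉ D)

theorem mem_ever_cons (D : Finset G) (s : G) (l : List G) (x : G) :
    x ∈ ever D (s :: l) ↔
      x ∈ ever D l ∨ (x ∈ D ∧ x ∉ ever D l ∧ (s :: l).prod * x ∉ D) := by
  rw [show ever D (s :: l) = ever D l ∪ D.filter (fun x => x ∉ ever D l ∧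
    (s :: l).prod * x ∉ D) from rfl, Finset.mem_union, Finset.mem_filter]

theorem ever_subset (D : Finset G) (l : List G) : ever D l ⊆ D := by
  induction l with
  | nil => simp [ever]
  | cons s l ih =>
    simp only [ever]
    exact Finset.union_subset ih (Finset.filter_subset _ _)

theorem not_ever (D : Finset G) (l : List G) (x : G) (hx : x ∈ D) (h : x ∉ ever D l) :
    l.prod * x ∈ D := by
  cases l with
  | nil => simpa using hx
  | cons s l =>
    simp only [ever, Finset.mem_union, Finset.mem_filter, not_or, not_and, not_not] at h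
    exact h.2 hx h.1

theorem ever_bound (S : Finset G) (hS : ∀ s ∈ S, s⁻¹ ∈ S) (D : Finset G) (l : List G) (s : G)
    (hs : s ∈ S) (hl : ∀ x ∈ l, x ∈ S) :
    2 * (ever D (s :: l)).card ≤ l.length * (bd S D).card + esc D s + (bd S D).card := by
  classical
  have hescb : ∀ s ∈ S, esc D s ≤ (bd S D).card := by
    intro s hs
    apply Finset.card_le_card
    intro x hx
    simp only [Finset.mem_filter] at hx
    simp only [bd, Finset.mem_filter]
    exact ⟨hx.1, s, hs, hx.2⟩
  induction l generalizing s with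
  | nil =>
    have h1 : (ever D [s]).card ≤ esc D s := by
      apply Finset.card_le_card
      intro x hx
      rw [mem_ever_cons] at hx
      rcases hx with hx | hx
      · simp [ever] at hx
      · rw [Finset.mem_filter]
        exact ⟨hx.1, by simpa using hx.2.2⟩
    have := hescb s hs
    simp only [List.length_nil, zero_mul, zero_add]
    omega
  | cons s' l ih =>
    have hs' : s' ∈ S := hl s' (by simp)
    have ih' := ih s' hs' (fun x hx => hl x (by simp [hx]))
    -- the newly escaping points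
    set A := D.filter (fun x => x ∉ ever D (s' :: l) ∧ (s :: s' :: l).prod * x ∉ D) with hA
    have hcard : (ever D (s :: s' :: l)).card ≤ (ever D (s' :: l)).card + A.card := by
      rw [show ever D (s :: s' :: l) = ever D (s' :: l) ∪ A from rfl]
      exact Finset.card_union_le _ _
    set B := D.filter (fun y => s * y ∉ D ∧ s'⁻¹ * y ∈ D) with hB
    have hAB : A.card ≤ B.card := by
      refine Finset.card_le_card_of_injOn (fun x => (s' :: l).prod * x) ?_ ?_
      · intro x hx
        simp only [hA, Finset.coe_filter, Set.mem_ofPred_eq] at hx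
        obtain ⟨hxD, hx1, hx2⟩ := hx
        have h1 : (s' :: l).prod * x ∈ D := not_ever D _ x hxD hx1
        have h2 : x ∉ ever D l := by
          intro h
          apply hx1
          simp only [ever, Finset.mem_union]
          exact Or.inl h
        have h3 : l.prod * x ∈ D := not_ever D _ x hxD h2
        simp only [hB, Finset.coe_filter, Set.mem_ofPred_eq]
        refine ⟨h1, ?_, ?_⟩
        · rw [← mul_assoc]
          simpa [List.prod_cons] using hx2
        · simpa [List.prod_cons, mul_assoc] using h3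
      · intro x _ y _ hxy
        simpa using hxy
    have hB1 : B.card ≤ esc D s := by
      apply Finset.card_le_card
      intro x hx
      simp only [hB, Finset.mem_filter] at hx
      simp only [Finset.mem_filter]
      exact ⟨hx.1, hx.2.1⟩
    have hB2 : B.card + esc D s' ≤ (bd S D).card := by
      rw [← esc_inv D s']
      unfold esc
      rw [← Finset.card_union_of_disjoint]
      · apply Finset.card_le_card
        intro x hx
        simp only [hB, Finset.mem_union, Finset.mem_filter] at hx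
        simp only [bd, Finset.mem_filter]
        rcases hx with hx | hx
        · exact ⟨hx.1, s, hs, hx.2.1⟩
        · exact ⟨hx.1, s'⁻¹, hS s' hs', hx.2⟩
      · rw [Finset.disjoint_left]
        intro x hx hx'
        simp only [hB, Finset.mem_filter] at hx hx'
        exact hx'.2 hx.2.2
    simp only [List.length_cons]
    have : 2 * (ever D (s :: s' :: l)).card ≤ 2 * (ever D (s' :: l)).card + B.card + B.card := by
      omega
    nlinarith [this, ih', hB1, hB2]

/-- The displacement bound: a word of length at most `r` throws at most `(r+1)/2` times the inner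
boundary out of `D`. -/
theorem esc_word (S : Finset G) (hS : ∀ s ∈ S, s⁻¹ ∈ S) (D : Finset G) (l : List G)
    (hl : ∀ x ∈ l, x ∈ S) :
    2 * esc D l.prod ≤ (l.length + 1) * (bd S D).card := by
  classical
  have h0 : esc D l.prod ≤ (ever D l).card := by
    apply Finset.card_le_card
    intro x hx
    simp only [Finset.mem_filter] at hx
    by_contra h
    exact hx.2 (not_ever D l x hx.1 h)
  cases l with
  | nil =>
    simp only [ever, Finset.card_empty] at h0
    omega
  | cons s l =>
    have h1 := ever_bound S hS D l s (hl s (by simp)) (fun x hx => hl x (by simp [hx]))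
    have h2 : esc D s ≤ (bd S D).card := by
      apply Finset.card_le_card
      intro x hx
      simp only [Finset.mem_filter] at hx
      simp only [bd, Finset.mem_filter]
      exact ⟨hx.1, s, hl s (by simp), hx.2⟩
    simp only [List.length_cons]
    nlinarith [h0, h1, h2]

omit [DecidableEq G] in
theorem ball_finite (S : Finset G) (n : ℕ) : (ball S n).Finite := by
  have h : (ball S n) ⊆ (fun l : List {x : G // x ∈ S} =>
      (l.map Subtype.val).prod) '' {l | l.length ≤ n} := by
    rintro g ⟨l, hl, hx, rfl⟩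
    refine ⟨l.attach.map (fun a => ⟨a.1, hx a.1 a.2⟩), ?_, ?_⟩
    · simpa using hl
    · simp only [List.map_map]
      congr 1
      exact List.attach_map_subtype_val l
  exact (Set.Finite.image _ (List.finite_length_le _ n)).subset h

/-- Averaging: some element of the ball of radius `r` moves most of `D` out of `D`. -/
theorem main_ineq (S : Finset G) (hS : ∀ s ∈ S, s⁻¹ ∈ S) (D : Finset G) (r : ℕ) :
    2 * D.card * growth S r ≤ (r + 1) * (bd S D).card * growth S r + 2 * D.card * D.card := by
  classical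
  set B : Finset G := (ball_finite S r).toFinset with hB
  have hBcard : B.card = growth S r := by
    unfold growth
    rw [Set.ncard_eq_toFinset_card _ (ball_finite S r)]
  -- double counting
  have h1 : ∑ h ∈ B, (D.filter (fun x => h * x ∈ D)).card ≤ D.card * D.card := by
    rw [← Finset.card_product, ← Finset.card_sigma]
    refine Finset.card_le_card_of_injOn (fun p : (_ : G) × G => (p.2, p.1 * p.2)) ?_ ?_
    · rintro ⟨h, x⟩ hp
      simp only [Finset.coe_sigma, Set.mem_sigma_iff, Finset.mem_coe, Finset.mem_filter] at hp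
      simp only [Finset.coe_product, Set.mem_prod, Finset.mem_coe]
      exact hp.2
    · rintro ⟨h, x⟩ _ ⟨h', x'⟩ _ heq
      simp only [Prod.mk.injEq] at heq
      obtain ⟨rfl, h2⟩ := heq
      simp only [mul_left_inj] at h2
      subst h2
      rfl
  have h2 : ∀ h ∈ B, 2 * D.card ≤ (r + 1) * (bd S D).card
      + 2 * (D.filter (fun x => h * x ∈ D)).card := by
    intro h hh
    rw [hB, Set.Finite.mem_toFinset] at hh
    obtain ⟨l, hl, hx, rfl⟩ := hh
    have h3 := esc_word S hS D l hx
    have h4 := Finset.card_filter_add_card_filter_not (s := D) (fun x => l.prod * x ∈ D)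
    have h5 : (l.length + 1) * (bd S D).card ≤ (r + 1) * (bd S D).card :=
      Nat.mul_le_mul_right _ (by omega)
    unfold esc at h3
    omega
  have h3 := Finset.sum_le_sum h2
  rw [Finset.sum_const, Finset.sum_add_distrib, Finset.sum_const, ← Finset.mul_sum] at h3
  simp only [smul_eq_mul, hBcard] at h3
  nlinarith [h1, h3]

end Lower

theorem growth_pos {G : Type} [Group G] (S : Finset G) (r : ℕ) : 0 < growth S r := by
  unfold growth
  rw [Set.ncard_pos (ball_finite S r)]
  exact ⟨1, [], by simp, by simp, by simp⟩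

/-- Real form of the main inequality. -/
theorem real_ineq {G : Type} [Group G] (S : Finset G) (hS : ∀ s ∈ S, s⁻¹ ∈ S)
    (D : Finset G) (hD : D.Nonempty) (n : ℕ) (hn : 1 ≤ n)
    (hb : ((bd S D).card : ℝ) / (D.card : ℝ) ≤ 1 / (n : ℝ)) (r : ℕ)
    (hg : (2 : ℝ) ^ r ≤ growth S r) :
    2 * (n : ℝ) * (1 - (D.card : ℝ) / 2 ^ r) ≤ r + 1 := by
  classical
  have hd : (0 : ℝ) < D.card := by exact_mod_cast hD.card_pos
  have hn' : (0 : ℝ) < n := by exact_mod_cast hn
  have h1 := main_ineq S hS D r
  have h2 : 2 * (D.card : ℝ) * growth S r ≤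
      (r + 1) * (bd S D).card * growth S r + 2 * D.card * D.card := by exact_mod_cast h1
  have h3 : ((bd S D).card : ℝ) * n ≤ D.card := by
    rw [div_le_div_iff₀ hd hn'] at hb
    linarith
  have h4 : (0 : ℝ) < growth S r := by exact_mod_cast growth_pos S r
  have hp : (0 : ℝ) < 2 ^ r := by positivity
  -- divide by growth
  have h5 : 2 * (D.card : ℝ) ≤ (r + 1) * (bd S D).card + 2 * D.card * (D.card / 2 ^ r) := by
    have h6 : 2 * (D.card : ℝ) * (D.card : ℝ) ≤ 2 * D.card * (D.card / 2 ^ r) * growth S r := by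
      have : (D.card : ℝ) ≤ D.card / 2 ^ r * growth S r := by
        rw [div_mul_eq_mul_div, le_div_iff₀ hp]
        exact mul_le_mul_of_nonneg_left hg hd.le
      nlinarith
    have h7 : 2 * (D.card : ℝ) * growth S r ≤
        ((r + 1) * (bd S D).card + 2 * D.card * (D.card / 2 ^ r)) * growth S r := by
      linarith
    exact le_of_mul_le_mul_right h7 h4
  have h8 : (2 * (n : ℝ) * (1 - (D.card : ℝ) / 2 ^ r)) * D.card ≤ (r + 1) * D.card := by
    have h9 : (r + 1 : ℝ) * ((bd S D).card * n) ≤ (r + 1) * D.card :=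
      mul_le_mul_of_nonneg_left h3 (by positivity)
    nlinarith [mul_le_mul_of_nonneg_right h5 hn'.le]
  exact le_of_mul_le_mul_right h8 hd

/-- For every `j`, `log₂ |D| ≥ 2 n (1 - 2^{-j}) - j - 2`. -/
theorem log_ineq {G : Type} [Group G] (S : Finset G) (hS : ∀ s ∈ S, s⁻¹ ∈ S)
    (hg : ∀ r : ℕ, (2 : ℝ) ^ r ≤ growth S r)
    (D : Finset G) (hD : D.Nonempty) (n : ℕ) (hn : 1 ≤ n)
    (hb : ((bd S D).card : ℝ) / (D.card : ℝ) ≤ 1 / (n : ℝ)) (j : ℕ) :
    2 * (n : ℝ) * (1 - 1 / 2 ^ j) - j - 2 ≤ Real.logb 2 D.card := by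
  have hd : (0 : ℝ) < D.card := by exact_mod_cast hD.card_pos
  have hd1 : (1 : ℝ) ≤ D.card := by exact_mod_cast hD.card_pos
  have hlog0 : 0 ≤ Real.logb 2 D.card := Real.logb_nonneg (by norm_num) hd1
  set r : ℕ := ⌈Real.logb 2 D.card⌉₊ + j with hr
  have h1 := real_ineq S hS D hD n hn hb r (hg r)
  have h2 : (D.card : ℝ) / 2 ^ r ≤ 1 / 2 ^ j := by
    have h3 : (D.card : ℝ) ≤ 2 ^ (⌈Real.logb 2 D.card⌉₊) := by
      have h4 : Real.logb 2 D.card ≤ (⌈Real.logb 2 D.card⌉₊ : ℝ) := Nat.le_ceil _
      rw [Real.logb_le_iff_le_rpow (by norm_num) hd] at h4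
      simpa using h4
    rw [hr, pow_add, div_le_div_iff₀ (by positivity) (by positivity)]
    have : (0 : ℝ) < 2 ^ j := by positivity
    nlinarith
  have h5 : (r : ℝ) ≤ Real.logb 2 D.card + 1 + j := by
    rw [hr]
    push_cast
    have := Nat.ceil_lt_add_one hlog0
    linarith
  have hn' : (0 : ℝ) ≤ n := by positivity
  nlinarith [mul_le_mul_of_nonneg_left h2 hn']

theorem folner_cases {G : Type} [Group G] (S : Finset G) (n : ℕ) :
    folner S n = ⊤ ∨ ∃ D : Finset G, D.Nonempty ∧
      ((bd S D).card : ℝ) / (D.card : ℝ) ≤ 1 / (n : ℝ) ∧ folner S n = (D.card : ℕ∞) := by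
  by_cases h : {m : ℕ∞ | ∃ D : Finset G, D.Nonempty ∧
    ((bd S D).card : ℝ) / (D.card : ℝ) ≤ 1 / (n : ℝ) ∧ m = (D.card : ℕ∞)}.Nonempty
  · right
    have h1 := csInf_mem h
    exact h1
  · left
    rw [Set.not_nonempty_iff_eq_empty] at h
    unfold folner
    rw [h]
    exact sInf_empty

theorem lower (K : ℝ≥0∞) (hK : K ∈ values) : 2 ≤ K := by
  obtain ⟨G, _, S, hS, -, hg, rfl⟩ := hK
  have hg' : ∀ r : ℕ, (2 : ℝ) ^ r ≤ growth S r := by
    intro r
    have h1 := hg (r + 1) (by omega)
    unfold g at h1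
    have h2 : ((r + 1 : ℕ) : ℝ) - 1 = (r : ℝ) := by push_cast; ring
    rw [h2, Real.rpow_natCast] at h1
    simpa using h1
  refine ENNReal.le_of_forall_nnreal_lt (fun a ha => ?_)
  have ha' : (a : ℝ) < 2 := by exact_mod_cast ha
  refine le_liminf_of_le (by isBoundedDefault) ?_
  -- choose `j` with `2 (1 - 2^{-j}) > a`
  obtain ⟨j, hj⟩ : ∃ j : ℕ, (1 / 2 : ℝ) ^ j < (2 - a) / 4 :=
    exists_pow_lt_of_lt_one (by linarith) (by norm_num)
  obtain ⟨N, hN⟩ := exists_nat_gt (2 * (j + 1 : ℝ) / (2 - a))
  filter_upwards [eventually_ge_atTop (max N 1)] with n hn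
  have hn1 : 1 ≤ n := le_trans (le_max_right _ _) hn
  have hnN : N ≤ n := le_trans (le_max_left _ _) hn
  have hn0 : (0 : ℝ) < n := by exact_mod_cast hn1
  rcases folner_cases S n with h | ⟨D, hD, hb, h⟩
  · rw [h]
    have : gInv ⊤ = ⊤ := rfl
    rw [this, ENNReal.top_div_of_ne_top (by simp)]
    exact le_top
  · rw [h]
    have h1 := log_ineq S hS hg' D hD n hn1 hb j
    have h2 : gInv (D.card : ℕ∞) = ENNReal.ofReal (1 + Real.logb 2 D.card) := rfl
    rw [h2, ← ENNReal.ofReal_natCast, ← ENNReal.ofReal_div_of_pos hn0]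
    rw [← ENNReal.ofReal_coe_nnreal]
    apply ENNReal.ofReal_le_ofReal
    rw [le_div_iff₀ hn0]
    have h3 : (2 - a : ℝ) > 0 := by linarith
    have h4 : 2 * (j + 1 : ℝ) < (2 - a) * n := by
      have h5 : 2 * (j + 1 : ℝ) / (2 - a) < n := lt_of_lt_of_le hN (by exact_mod_cast hnN)
      rw [div_lt_iff₀ h3] at h5
      linarith
    have h6 : (1 : ℝ) / 2 ^ j < (2 - a) / 4 := by simpa using hj
    nlinarith

/-- translate of a finite set of integers -/
def sh (n : ℤ) (A : Finset ℤ) : Finset ℤ := A.map (Equiv.addRight n).toEmbedding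

theorem mem_sh (n : ℤ) (A : Finset ℤ) (x : ℤ) : x ∈ sh n A ↔ x - n ∈ A := by
  unfold sh
  rw [Finset.mem_map_equiv]
  simp [sub_eq_add_neg]

/-- The lamplighter group: `A` is the set of lit lamps, `m` the position of the lamplighter. -/
@[ext] structure Lamp where
  A : Finset ℤ
  m : ℤ
  deriving DecidableEq

namespace Lamp

instance : Mul Lamp := ⟨fun a b => ⟨b.A ∆ sh b.m a.A, a.m + b.m⟩⟩
instance : One Lamp := ⟨⟨∅, 0⟩⟩
instance : Inv Lamp := ⟨fun a => ⟨sh (-a.m) a.A, -a.m⟩⟩

theorem mul_def (a b : Lamp) : a * b = ⟨b.A ∆ sh b.m a.A, a.m + b.m⟩ := rfl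
theorem one_def : (1 : Lamp) = ⟨∅, 0⟩ := rfl
theorem inv_def (a : Lamp) : a⁻¹ = ⟨sh (-a.m) a.A, -a.m⟩ := rfl

instance : Group Lamp := Group.ofLeftAxioms
  (by
    intro a b c
    simp only [mul_def]
    ext x
    · simp only [Finset.mem_symmDiff, mem_sh]
      have : x - (b.m + c.m) = x - c.m - b.m := by ring
      rw [this]
      tauto
    · simp [add_assoc])
  (by
    intro a
    simp only [mul_def, one_def]
    ext x
    · simp [Finset.mem_symmDiff, mem_sh]
    · simp)
  (by
    intro a
    simp only [mul_def, one_def, inv_def]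
    ext x
    · simp [Finset.mem_symmDiff, mem_sh]
    · simp)

/-- move up -/
def t : Lamp := ⟨∅, 1⟩
/-- move up, switching the lamp passed -/
def u : Lamp := ⟨{0}, 1⟩

theorem t_mul (a : Lamp) : t * a = ⟨a.A, a.m + 1⟩ := by
  simp only [mul_def, t]
  ext x
  · simp [Finset.mem_symmDiff, mem_sh]
  · simp [add_comm]

theorem u_mul (a : Lamp) : u * a = ⟨a.A ∆ {a.m}, a.m + 1⟩ := by
  simp only [mul_def, u]
  ext x
  · simp [Finset.mem_symmDiff, mem_sh, sub_eq_zero]
  · simp [add_comm]

theorem tinv_mul (a : Lamp) : t⁻¹ * a = ⟨a.A, a.m - 1⟩ := by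
  rw [inv_mul_eq_iff_eq_mul, t_mul]
  ext <;> simp

theorem uinv_mul (a : Lamp) : u⁻¹ * a = ⟨a.A ∆ {a.m - 1}, a.m - 1⟩ := by
  rw [inv_mul_eq_iff_eq_mul, u_mul]
  ext <;> simp

/-- The generating set. -/
def S : Finset Lamp := {t, u, t⁻¹, u⁻¹}

theorem S_symm : ∀ s ∈ S, s⁻¹ ∈ S := by
  intro s hs
  simp only [S, Finset.mem_insert, Finset.mem_singleton] at hs ⊢
  rcases hs with rfl | rfl | rfl | rfl <;> simp

theorem S_gen : Subgroup.closure (S : Set Lamp) = ⊤ := by
  rw [eq_top_iff]
  rintro ⟨A, m⟩ -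
  set H := Subgroup.closure (S : Set Lamp)
  have ht : t ∈ H := Subgroup.subset_closure (by simp [S])
  have hu : u ∈ H := Subgroup.subset_closure (by simp [S])
  have h1 : ∀ (A : Finset ℤ) (m : ℤ), (⟨A, m + 1⟩ : Lamp) ∈ H ↔ (⟨A, m⟩ : Lamp) ∈ H := by
    intro A m
    rw [← t_mul ⟨A, m⟩, Subgroup.mul_mem_cancel_left H ht]
  have h2 : ∀ (A : Finset ℤ) (m : ℤ),
      (⟨A ∆ {m}, m + 1⟩ : Lamp) ∈ H ↔ (⟨A, m⟩ : Lamp) ∈ H := by
    intro A m
    rw [← u_mul ⟨A, m⟩, Subgroup.mul_mem_cancel_left H hu]
  have h3 : ∀ (A : Finset ℤ) (m : ℤ), (⟨A, m⟩ : Lamp) ∈ H ↔ (⟨A, 0⟩ : Lamp) ∈ H := by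
    intro A m
    induction m using Int.induction_on with
    | zero => rfl
    | succ n ih => rw [h1]; exact ih
    | pred n ih =>
      rw [← ih, ← h1]
      simp
  have h4 : ∀ A : Finset ℤ, (⟨A, 0⟩ : Lamp) ∈ H := by
    intro A
    induction A using Finset.induction_on with
    | empty => exact H.one_mem
    | insert k A hk ih =>
      have h5 : insert k A = A ∆ {k} := by
        ext x
        simp only [Finset.mem_insert, Finset.mem_symmDiff, Finset.mem_singleton]
        by_cases hx : x = k
        · subst hx; simp [hk]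
        · simp [hx]
      rw [h5, ← h3 _ (k + 1), h2, h3]
      exact ih
  exact (h3 A m).2 (h4 A)

theorem mem_ball (r : ℕ) (A : Finset ℤ) (hA : A ⊆ Finset.Ico (0 : ℤ) r) :
    (⟨A, r⟩ : Lamp) ∈ ball S r := by
  induction r generalizing A with
  | zero =>
    have : A = ∅ := by simpa using hA
    subst this
    exact ⟨[], by simp, by simp, by simp [one_def]⟩
  | succ r ih =>
    by_cases hr : (r : ℤ) ∈ A
    · have hA' : A.erase r ⊆ Finset.Ico (0 : ℤ) r := by
        intro x hx
        rw [Finset.mem_erase] at hx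
        have := hA hx.2
        simp only [Finset.mem_Ico] at this ⊢
        push_cast at this
        exact ⟨this.1, by omega⟩
      obtain ⟨l, hl, hx, hp⟩ := ih _ hA'
      refine ⟨u :: l, by simp [hl], ?_, ?_⟩
      · intro x hx'
        rw [List.mem_cons] at hx'
        rcases hx' with rfl | hx'
        · simp [S]
        · exact hx x hx'
      · rw [List.prod_cons, hp, u_mul]
        ext x
        · simp only [Finset.mem_symmDiff, Finset.mem_erase, Finset.mem_singleton]
          by_cases hx : x = r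
          · subst hx; simp [hr]
          · simp [hx]
        · simp
    · have hA' : A ⊆ Finset.Ico (0 : ℤ) r := by
        intro x hx
        have := hA hx
        simp only [Finset.mem_Ico] at this ⊢
        push_cast at this
        refine ⟨this.1, ?_⟩
        rcases lt_or_eq_of_le (Int.lt_add_one_iff.1 this.2) with h | h
        · exact h
        · subst h; exact absurd hx hr
      obtain ⟨l, hl, hx, hp⟩ := ih _ hA'
      refine ⟨t :: l, by simp [hl], ?_, ?_⟩
      · intro x hx'
        rw [List.mem_cons] at hx'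
        rcases hx' with rfl | hx'
        · simp [S]
        · exact hx x hx'
      · rw [List.prod_cons, hp, t_mul]
        ext x <;> simp

theorem growth_ge (r : ℕ) : 2 ^ r ≤ growth S r := by
  have h1 : ((fun A : Finset ℤ => (⟨A, r⟩ : Lamp)) ''
      ((Finset.Ico (0 : ℤ) r).powerset : Set (Finset ℤ))) ⊆ ball S r := by
    rintro _ ⟨A, hA, rfl⟩
    exact mem_ball r A (by rwa [Finset.mem_coe, Finset.mem_powerset] at hA)
  have h2 := Set.ncard_le_ncard h1 (ball_finite S r)
  rw [Set.ncard_image_of_injective _ (by intro A B h; simpa using h), Set.ncard_coe_finset,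
    Finset.card_powerset] at h2
  simpa [growth] using h2

/-- The standard Folner set. -/
noncomputable def D (h : ℕ) : Finset Lamp :=
  ((Finset.Ico (0 : ℤ) h).powerset ×ˢ Finset.Icc (0 : ℤ) h).image (fun p => ⟨p.1, p.2⟩)

theorem mem_D (h : ℕ) (a : Lamp) :
    a ∈ D h ↔ a.A ⊆ Finset.Ico (0 : ℤ) h ∧ 0 ≤ a.m ∧ a.m ≤ h := by
  simp only [D, Finset.mem_image, Finset.mem_product, Finset.mem_powerset, Finset.mem_Icc,
    Prod.exists]
  constructor
  · rintro ⟨A, m, h1, rfl⟩
    exact ⟨h1.1, h1.2⟩
  · intro h1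
    exact ⟨a.A, a.m, ⟨h1.1, h1.2⟩, rfl⟩

theorem card_D (h : ℕ) : (D h).card = 2 ^ h * (h + 1) := by
  unfold D
  rw [Finset.card_image_of_injective, Finset.card_product, Finset.card_powerset]
  · simp
  · rintro ⟨A, m⟩ ⟨B, n⟩ h
    simpa using h

theorem card_bd (h : ℕ) : (bd S (D h)).card ≤ 2 ^ h * 2 := by
  have h1 : bd S (D h) ⊆
      ((Finset.Ico (0 : ℤ) h).powerset ×ˢ ({0, (h : ℤ)} : Finset ℤ)).image
        (fun p => (⟨p.1, p.2⟩ : Lamp)) := by
    intro a ha
    simp only [bd, Finset.mem_filter] at ha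
    obtain ⟨ha, s, hs, hsa⟩ := ha
    rw [mem_D] at ha
    simp only [Finset.mem_image, Finset.mem_product, Finset.mem_powerset, Finset.mem_insert,
      Finset.mem_singleton, Prod.exists]
    refine ⟨a.A, a.m, ⟨ha.1, ?_⟩, rfl⟩
    by_contra hcon
    rw [not_or] at hcon
    apply hsa
    have hlow : 0 < a.m := lt_of_le_of_ne ha.2.1 (Ne.symm hcon.1)
    have hhigh : a.m < h := lt_of_le_of_ne ha.2.2 hcon.2
    have hsub : ∀ k : ℤ, 0 ≤ k → k < h → a.A ∆ {k} ⊆ Finset.Ico (0 : ℤ) h := by
      intro k hk1 hk2 x hx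
      simp only [Finset.mem_symmDiff, Finset.mem_singleton] at hx
      rcases hx with hx | hx
      · exact ha.1 hx.1
      · rw [hx.1]; simp [hk1, hk2]
    simp only [S, Finset.mem_insert, Finset.mem_singleton] at hs
    rcases hs with rfl | rfl | rfl | rfl
    · rw [t_mul, mem_D]; exact ⟨ha.1, by simp only; omega, by simp only; omega⟩
    · rw [u_mul, mem_D]
      exact ⟨hsub _ (by omega) (by omega), by simp only; omega, by simp only; omega⟩
    · rw [tinv_mul, mem_D]; exact ⟨ha.1, by simp only; omega, by simp only; omega⟩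
    · rw [uinv_mul, mem_D]
      exact ⟨hsub _ (by omega) (by omega), by simp only; omega, by simp only; omega⟩
  refine (Finset.card_le_card h1).trans (Finset.card_image_le.trans ?_)
  rw [Finset.card_product, Finset.card_powerset]
  have h2 : (Finset.Ico (0 : ℤ) h).card = h := by simp
  rw [h2]
  exact Nat.mul_le_mul_left _ Finset.card_le_two

theorem folner_le (n : ℕ) (hn : 1 ≤ n) : folner S n ≤ ((n * 4 ^ n : ℕ) : ℕ∞) := by
  have hcard : (D (2 * n - 1)).card = n * 4 ^ n := by
    rw [card_D]
    have h1 : 2 * n - 1 + 1 = 2 * n := by omega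
    rw [h1]
    have h2 : 4 ^ n = 2 ^ (2 * n - 1) * 2 := by
      rw [← pow_succ, h1, pow_mul]
      norm_num
    rw [h2]
    ring
  unfold folner
  apply sInf_le
  refine ⟨D (2 * n - 1), ?_, ?_, by rw [hcard]⟩
  · rw [← Finset.card_pos, hcard]
    positivity
  · have h1 : ((bd S (D (2 * n - 1))).card : ℝ) ≤ 2 ^ (2 * n - 1) * 2 := by
      exact_mod_cast card_bd (2 * n - 1)
    have h2 : ((D (2 * n - 1)).card : ℝ) = 2 ^ (2 * n - 1) * (2 * n) := by
      rw [card_D]
      have h1 : 2 * n - 1 + 1 = 2 * n := by omega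
      rw [h1]
      push_cast
      ring
    rw [h2]
    have hn0 : (0 : ℝ) < n := by exact_mod_cast hn
    rw [div_le_div_iff₀ (by positivity) hn0]
    nlinarith

end Lamp

theorem gInv_le (m : ℕ∞) (n : ℕ) (hn : 1 ≤ n) (h : m ≤ (n : ℕ∞)) :
    gInv m ≤ ENNReal.ofReal (1 + Real.logb 2 n) := by
  obtain ⟨k, rfl⟩ := ENat.ne_top_iff_exists.1 (ne_top_of_le_ne_top (ENat.natCast_ne_top n) h)
  have h1 : gInv (k : ℕ∞) = ENNReal.ofReal (1 + Real.logb 2 k) := rfl
  rw [h1]
  apply ENNReal.ofReal_le_ofReal
  have h2 : k ≤ n := by exact_mod_cast h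
  rcases Nat.eq_zero_or_pos k with rfl | hk
  · have : (0 : ℝ) ≤ Real.logb 2 n := Real.logb_nonneg (by norm_num) (by exact_mod_cast hn)
    simpa using this
  · have : Real.logb 2 k ≤ Real.logb 2 n :=
      Real.logb_le_logb_of_le (by norm_num) (by exact_mod_cast hk) (by exact_mod_cast h2)
    linarith

theorem upper : ∃ K ∈ values, K ≤ 2 := by
  refine ⟨_, ⟨Lamp, inferInstance, Lamp.S, Lamp.S_symm, Lamp.S_gen, ?_, rfl⟩, ?_⟩
  · intro n hn
    unfold g
    have h2 : (n : ℝ) - 1 = ((n - 1 : ℕ) : ℝ) := by push_cast [hn]; ring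
    rw [h2, Real.rpow_natCast]
    exact_mod_cast Lamp.growth_ge (n - 1)
  · have hlim : Tendsto (fun n : ℕ => ENNReal.ofReal
        ((1 + 2 * (n : ℝ) + Real.logb 2 n) / n)) atTop (𝓝 2) := by
      have h1 : Tendsto (fun n : ℕ => (1 + 2 * (n : ℝ) + Real.logb 2 n) / n) atTop (𝓝 2) := by
        have h2 : Tendsto (fun n : ℕ => (n : ℝ)⁻¹) atTop (𝓝 0) := tendsto_inv_atTop_nhds_zero_nat
        have h3 : Tendsto (fun n : ℕ => Real.log (n : ℝ) ^ 1 / (1 * (n : ℝ) + 0)) atTop (𝓝 0) :=
          (Real.tendsto_pow_log_div_mul_add_atTop 1 0 1 one_ne_zero).comp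
            tendsto_natCast_atTop_atTop
        have h4 : Tendsto (fun n : ℕ => (n : ℝ)⁻¹ + 2 +
            (Real.log (n : ℝ) ^ 1 / (1 * (n : ℝ) + 0)) / Real.log 2) atTop
            (𝓝 (0 + 2 + 0 / Real.log 2)) :=
          (h2.add tendsto_const_nhds).add (h3.div_const _)
        have h5 : (0 : ℝ) + 2 + 0 / Real.log 2 = 2 := by simp
        rw [h5] at h4
        refine h4.congr' ?_
        filter_upwards [eventually_ge_atTop 1] with n hn
        have hn0 : (n : ℝ) ≠ 0 := by
          have : (0 : ℝ) < n := by exact_mod_cast hn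
          exact this.ne'
        have hl : Real.log 2 ≠ 0 := by
          have : (0 : ℝ) < Real.log 2 := Real.log_pos (by norm_num)
          exact this.ne'
        unfold Real.logb
        field_simp
        ring
      have h6 := ENNReal.tendsto_ofReal h1
      simpa using h6
    rw [← hlim.liminf_eq]
    refine liminf_le_liminf ?_
    filter_upwards [eventually_ge_atTop 1] with n hn
    have hn0 : (0 : ℝ) < n := by exact_mod_cast hn
    have hpos : 1 ≤ n * 4 ^ n := Nat.one_le_iff_ne_zero.2 (by positivity)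
    have h1 := gInv_le _ _ hpos (Lamp.folner_le n hn)
    have h2 : Real.logb 2 ((n * 4 ^ n : ℕ) : ℝ) = 2 * n + Real.logb 2 n := by
      push_cast
      rw [Real.logb_mul hn0.ne' (by positivity), Real.logb_pow]
      have : Real.logb 2 4 = 2 := by
        rw [show (4 : ℝ) = 2 ^ (2 : ℝ) by norm_num, Real.logb_rpow (by norm_num) (by norm_num)]
      rw [this]
      ring
    rw [h2] at h1
    calc gInv (folner Lamp.S n) / (n : ℝ≥0∞)
        ≤ ENNReal.ofReal (1 + (2 * n + Real.logb 2 n)) / (n : ℝ≥0∞) :=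
          ENNReal.div_le_div_right h1 _
      _ = ENNReal.ofReal ((1 + 2 * (n : ℝ) + Real.logb 2 n) / n) := by
          rw [← ENNReal.ofReal_natCast, ← ENNReal.ofReal_div_of_pos hn0]
          congr 1
          ring

/-- `K_g = 2` for `g x = 2 ^ (x - 1)`. -/
theorem result : sInf values = 2 := by
  apply le_antisymm
  · obtain ⟨K, hK, hK2⟩ := upper
    exact (sInf_le hK).trans hK2
  · exact le_sInf lower

end Pool.Agent.Results.MP_60a09a_al.FolnerConstantTwo
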